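import Pool.Agent.Run7.h152.LI.Lift

/-!
# Conjecture D for abelian varieties is equivalent to the injectivity conjecture, and lifts from
# reductions

Let `k` be a field (algebraically closed in the applications) of any characteristic, `W` a Weil
cohomology with any coefficient field `K` of characteristic zero (for instance `ℚ_ℓ`), `𝒢` a set of
symmetries of `W` (for instance a Galois group), and `A` an abelian variety (`IsAbelianType`: we use
only that the cohomology is generated by `H^1(A)`, the formula `m^* x = pr_1^* x + pr_2^* x` for `x` in
`H^1(A)`, and a divisor `D` with hard Lefschetz). Let `e` be an endomorphism of `A` such that on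
`H^1(A)` (`IsRosati`) `P(e) = 0` for a squarefree rational polynomial `P`, and the Rosati adjoint of `e`
is `Q(e)`, where `Q(z)` is the complex conjugate of `z` for the complex roots `z` of `P`; and such that
for every irreducible factor `f` of `P` over `K` the kernel of `f(e)` on `H^1(A)` is irreducible
under the algebraic correspondences and `𝒢` (`IrreducibleKernels`). Let `Y` be any product of members
of a set `𝒴` of varieties such that D holds for all such products.

**Theorem.** For each `j` the following are equivalent: homological and numerical equivalence are the
same for the cycles of codimension `j` on `A × Y` (conjecture D); cycles of codimension `j` on `A × Y`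
with classes which are linearly independent over `ℚ` have classes which are linearly independent over
`K` (Tate's conjecture `I`). So conjecture D in codimension `j` is true for `A × Y` if the cycles of
codimension `j` on `A × Y` specialize to a variety `X₀` over any field for which D or `I` is
true in codimension `j`.

**Every abelian variety satisfies the hypotheses, for all `ℓ ≠ char k`.** Let `A` be an abelian variety
over the algebraic closure `k` of a finitely generated field `k₀` and let `e` generate the centre of
`End(A) ⊗ ℚ` (after multiplication by an integer, and with a divisor `D` that gives a
polarization). The Rosati involution is the complex conjugation on the centre. By the theorems of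
Tate, Zarhin, Mori and Faltings `H^1(A, ℚ_ℓ)` is a semisimple representation of the Galois group
`𝒢` of each finite extension of `k₀`, with the commutant `End(A) ⊗ ℚ_ℓ`, so that the kernels of the
`f(e)` are irreducible under `𝒢` and `End(A)`. With `Y` a point, or any variety all powers of
which satisfy D, we see:

* For all abelian varieties over all fields and for all `ℓ` conjecture D is equivalent to Tate's
  conjecture `I`, codimension by codimension. (It is easy that D implies `I`. The other implication
  was known only together with the Tate conjecture.)
* If D (or only `I`) is true in codimension `j`, for one `ℓ`, for one reduction `A₀` of `A` (good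
  reduction, over any field) then D is true for `A`, in the same codimension and for the same `ℓ`. In
  particular **conjecture D for abelian varieties over finite fields implies conjecture D for
  abelian varieties over all fields**. (It was known that the conjecture of Hodge type lifts in
  this way, since it is about signs. D is not known to lift in general: more cycles on `X₀` give more
  conditions.) The same holds for `A × Y`.
* So D holds, for all `ℓ`, for each abelian variety over a field of characteristic `p` with a
  reduction for which D is known for all `ℓ`: a product of a power of an absolutely simple abelian
  variety of dimension at most five and a supersingular one, and many others (starting results).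

For abelian varieties without factors of type IV, or with `ℓ` such that the complex conjugation fixes
the places of the centre above `ℓ`, D is already known by the starting result
`MP_5f0950_ag.ComponentWeights`; the theorem is about the other `ℓ` (a set of positive density for each
`A` with a factor of type IV).

Proof. By the starting theorem the blocks `l` of `H^1(A)` have real weights `w l`, with
`w (bar l) = - w l` for conjugate blocks, such that all nonzero components of numerically trivial
cycles have negative total weight. Let `N` be the rational vector space of the classes of the numerically
trivial cycles of codimension `j`. By `I` it is finite-dimensional, and the push-forward by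
`(e + c) × 1` (`c` a natural number) acts on it with the same eigenvalues as on `K ⊗ N`, which embeds in
the cohomology. The eigenvalues are the products `∏ (λ i + c)` for roots `λ i` of `P`, and the
weights of the blocks of the `λ i` have a negative sum. But the characteristic polynomial on `N` has
rational coefficients, so that the complex conjugates `∏ (conj (λ i) + c)` are eigenvalues, too, with
the opposite sum of weights. For suitable `c` the product determines the multiset of the `λ i`, and this
is a contradiction if `N ≠ 0`.
-/

set_option autoImplicit false

open CategoryTheory AlgebraicGeometry Polynomial

universe u v u' v'

namespace Pool.Agent.Results.MP_f569db_ag.AbelianReductions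

open Pool.Agent.H914 Pool.Agent.H914.VarClass Pool.Agent.R908 Run7.h152.LI

/-- **Conjecture D for an abelian variety times a variety with D is equivalent to the injectivity
conjecture, and lifts from special fibres.** -/
theorem result {k : Type u} [Field k] {𝒱 : VarClass k} {ops : CycleOps 𝒱}
    (W : WeilCohomology.{u, v} ops) (𝒢 : Set (Symmetry W)) (A : 𝒱.Obj) (m : A.prod A ⟶ A)
    (D : A.Cycles) (hA : IsAbelianType 𝒢 A m D) (e : A ⟶ A) (P Q : ℚ[X])
    (hR : IsRosati W D e P Q) (hI : IrreducibleKernels 𝒢 A e P) (𝒴 : Set 𝒱.Obj)
    (hY : ∀ Y, IsProductOf 𝒴 Y → HomEqNum W Y) (Y : 𝒱.Obj) (hYY : IsProductOf 𝒴 Y) (j : ℕ) :
    (HomEqNumAt W (A.prod Y) j ↔ InjectiveAt W (A.prod Y) j) ∧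
    ∀ {k₀ : Type u'} [Field k₀] {𝒱₀ : VarClass k₀} {ops₀ : CycleOps 𝒱₀}
      (W₀ : WeilCohomology.{u', v'} ops₀) (X₀ : 𝒱₀.Obj),
      CyclesSpecialize W W₀ (A.prod Y) X₀ j → (HomEqNumAt W₀ X₀ j ∨ InjectiveAt W₀ X₀ j) →
        HomEqNumAt W (A.prod Y) j := by
  refine ⟨⟨injectiveAt_of_homEqNumAt, homEqNumAt_of_injective hA hR hI hY hYY⟩, ?_⟩
  intro k₀ _ 𝒱₀ ops₀ W₀ X₀ hsp h₀
  refine homEqNumAt_of_injective hA hR hI hY hYY (hsp.injectiveAt ?_)
  rcases h₀ with h₀ | h₀
  · exact injectiveAt_of_homEqNumAt h₀
  · exact h₀

end Pool.Agent.Results.MP_f569db_ag.AbelianReductions
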