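import Pool.Agent.Run7.h152.DR.Bridge

/-!
# Conjecture D for abelian varieties follows from conjecture D for the strata of a degenerate
# reduction

Let `X` be a smooth projective variety over a field `k`, for example over an algebraically closed
field of characteristic `p`, with a projective strictly semistable model over a discrete valuation
ring (with fraction field contained in `k`), and let `W`, `W₀` be the `ℓ`-adic cohomology theories over
`k` and over the algebraic closure `k₀` of the residue field. Let `T.Q p` be the components of the
intersections of `p + 1` components of the special fibre, `ρ` the restriction from `H(T.Q p)` to
`H(T.Q (p + 1))` and `τ` the Gysin map in the other direction (`FacesO.res`, `FacesO.gys`, alternating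
sums of pull-backs and push-forwards). Each cycle of codimension `j` on `X` has a closure in the
model (after a finite extension, and a resolution which changes the strata by toric fibrations), with
restrictions to the components of the special fibre. By the weight spectral sequence (Rapoport-Zink)
and the theorem of Deligne on weights a linear combination of classes of cycles on `X` is zero if and
only if the corresponding class `x` on the components is a boundary:
`x = τ (a 1)`, `ρ (a 1) + τ (a 3) = 0`, `ρ (a 3) + τ (a 5) = 0`, … (`ReduceTo`, `Tower.IsBoundary`).
`DegenerateReduction W W₀ X j` says that all cycles of codimension `j` on `X` have such reductions, and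
that **homological and numerical equivalence are the same for all strata** `T.Q p`. Nothing else is
assumed about the strata: no standard conjecture of Lefschetz type or of Hodge type.

**Theorem.**

1. Under this condition Tate's injectivity conjecture `I` is true for `X` in codimension `j`: cycles
   with classes which are linearly independent over `ℚ` have classes which are linearly independent
   over the coefficient field `K = ℚ_ℓ`.
2. If `X = A × Y`, where `A` is an abelian variety (`IsAbVar`) and `Y` is a member of a set `𝒴` of
   varieties which is closed under products and such that D holds for its members (for instance `Y` is
   a point), then D is true for `X` in codimension `j`.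

The good reductions are the case of a tower with one stage, and are treated in
`MP_f569db_ag.AbelianReductions`, whose equivalence `D ⇔ I` for `A × Y` is used here.

**Consequences**, for all `ℓ ≠ p`:

* *If an abelian variety `A` over a field `F` of characteristic `p` has semistable reduction at a place
  of `F`, and `B` is the abelian part of the reduction, then D for `B` implies D for `A`.* (The strata
  of the models of Mumford and Künnemann are fibrations over `B` with toric fibres, with the cohomology
  of `B` times a toric variety.) So D for abelian varieties with a place of toric rank `t > 0` is
  reduced to the dimension `dim A - t`; it is true for all `ℓ` if `dim B ≤ 3`, or `B` is a power of an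
  elliptic curve or supersingular, and in particular if `A` has totally toric reduction at one place.
* Tate's injectivity conjecture `I` is true for all varieties in characteristic `p` with a semistable
  reduction whose strata have algebraic cohomology (totally degenerate varieties), for example for
  products of Mumford curves, of surfaces with rational components, and varieties uniformized by
  Drinfeld spaces, in every codimension.

D is not known to lift from special fibres in general (there are more cycles on a special fibre, and so
more conditions), but `I` lifts, and `I` implies D for abelian varieties.

Proof of 1. Let `ψ` be a `ℚ`-linear form on the coefficient field. By D the intersection form is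
perfect on the rational algebraic classes of each stratum. So for each cohomology class `x` of a stratum
there is a unique rational algebraic class `Ψ x` with `tr (Ψ x · w) = ψ (tr (x · w))` for all
algebraic classes `w`. As `ρ` and `τ` are adjoint to each other and preserve algebraic classes, they
commute with `Ψ`. So `Ψ` maps a solution of the boundary equations for `∑ c i z₀ i` to a rational
solution for `∑ ψ (c i) z₀ i`, and the combination `∑ ψ (c i) z i` is homologically trivial.
-/

set_option autoImplicit false

open CategoryTheory AlgebraicGeometry

universe u v u' v'

namespace Pool.Agent.Results.MP_f569db_ag.DegenerateReductions

open Pool.Agent.H914 Pool.Agent.H914.VarClass Run7.h152.DR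

/-- **The conjecture D for the strata of a degenerate reduction implies the injectivity conjecture,
and the conjecture D for abelian varieties times varieties with D.** -/
theorem result {k : Type u} [Field k] {𝒱 : VarClass k} {ops : CycleOps 𝒱}
    (W : WeilCohomology.{u, v} ops)
    {k₀ : Type u'} [Field k₀] {𝒱₀ : VarClass k₀} {ops₀ : CycleOps 𝒱₀}
    (W₀ : WeilCohomology.{u', v'} ops₀) (j : ℕ) :
    (∀ X : 𝒱.Obj, DegenerateReduction W W₀ X j → TateInjective W X j) ∧
    ∀ (𝒢 : Set (Sym W)) (A : 𝒱.Obj), IsAbVar W 𝒢 A →
      ∀ 𝒴 : Set 𝒱.Obj, (∀ Y ∈ 𝒴, ∀ Z ∈ 𝒴, Y.prod Z ∈ 𝒴) → (∀ Y ∈ 𝒴, ConjD W Y) →
        ∀ Y ∈ 𝒴, DegenerateReduction W W₀ (A.prod Y) j → HomNumAt W (A.prod Y) j :=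
  ⟨fun _ h => h.injective, fun _ _ hA _ hp hY _ hYY h => hA.homNumAt hp hY hYY h.injective⟩

end Pool.Agent.Results.MP_f569db_ag.DegenerateReductions
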