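import Pool.Agent.Run7.h192.Poly.Main

/-!
# The square root law for homological and numerical equivalence

Let `k` be a field (algebraically closed in the applications) and `W` a Weil cohomology theory with
coefficients in any field `K` of characteristic zero, on a class of smooth proper varieties over `k`
closed under products, which contains a variety `P` with one-dimensional cohomology (for instance a
point). Let `X` be any variety of the class with a divisor `D` with `D ^ dim X ≠ 0`, the sign operator
of which, `(-1) ^ i` on `H^i(X)`, is a `K`-linear combination of algebraic correspondences: over an
algebraic closure of a finite field, and `ℓ`-adic cohomology, this is **every** smooth projective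
variety (Katz and Messing); over any `k` it can be an abelian variety, a surface, a complete
intersection, and any product of these. Let `b` be the sum of the Betti numbers of `X`.

Consider the algebraic cycles in the middle codimension of `X ^ (2n + 2)`. Let `a n` be the dimension
of the `K`-subspace of the cohomology spanned by their classes, and `r n` their rank modulo numerical
equivalence. We always have `0 < r n ≤ a n ≤ (n + 2) ^ (b ^ 2) * r n`.

**Theorem.** Let `κ` be a natural number. Either homological and numerical equivalence agree on
`X ^ (κ + 1)` (the conjecture D), or for **all** `n`

  `a n ≥ √((n + 1) / (b ^ 3 * log (n + 2))) / (22 * (κ + 1)) * r n`.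

So the conjecture D holds for `X ^ (κ + 1)` as soon as this fails for a single `n`: if on one single
power `X ^ (2n + 2)` the numerically trivial cycles do not outnumber the others by the factor
`c √(n / log n)`. Homological and numerical equivalence agree on all powers of `X`, or the powers of
`X` have more and more homology classes of numerically trivial cycles, with the ratio `a n / r n`
between a fixed multiple of `√(n / log n)` and a power of `n`. In the second case numerical
equivalence kills all but a proportion `O(√(log n / n))` of the algebraic classes. The exponent `1 / 2`
is the best possible for tensor systems (filtered vector spaces with two one-dimensional steps). The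
ratio was known to grow at least like a multiple of `log n` (`Pool.Agent.R940.d_law`).

The proof. By the canonical weight filtration of Kempf type (`Pool.Agent.N180.Cf`) there are a basis of
`H(X)` and real weights of its members such that all coordinates of algebraic classes on the powers of
`X` have weights `≥ 0`, and the numerically trivial classes are those for which all coordinates have
positive weight. Order the words in the basis by weight, and lexicographically for equal weight. The
number of leading words of algebraic classes of weight zero is the numerical rank. If `z` is a
numerically trivial class on `X ^ m` with leading word `y` of weight `ω > 0`, then inserting the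
letters of `j` copies of `y` into the leading words of weight zero of length `N - j m`, one letter in
each of `j m` blocks, gives leading words of weight `j ω` of algebraic classes on `X ^ N`. The number
of different words obtained in this way is estimated by an exponential moment: since the ranks are at
least `b ^ N` divided by a power of `N`, almost all the words obtained arise from a bounded multiple of
the average number of insertions, as long as `j m ≤ c √(N / log N)`. So each of the weights `j ω` for
`j ≤ c √(N / log N) / m` contributes at least a fixed proportion of the numerical rank.
-/

universe u v

namespace Pool.Agent.Results.MP_f569db_ag.SquareRootLaw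

open CategoryTheory Pool.Agent.H914 Pool.Agent.H914.VarClass Pool.Agent.R940 Pool.Agent.N180.Cf
  Pool.Agent.Run7.h192.Poly
open Pool.Agent.Y163 (pw sq Big)
open Pool.Agent.W534 (numRank)

/-- **The square root law.** -/
theorem result {k : Type u} [Field k] {𝒱 : VarClass k} {ops : CycleOps 𝒱}
    (W : WeilCohomology.{u, v} ops) (X : 𝒱.Obj) (hX : SignOpAlgebraic W X) (P : 𝒱.Obj)
    (hP : Module.finrank W.K (W.H P) = 1) (D : X.Cycles) (hD : X.IsCyc 1 D)
    (hbig : Big ops X D) :
    (∀ n, 0 < numRank ops (sq X n) ((n + 1) * X.dim) ∧
      numRank ops (sq X n) ((n + 1) * X.dim) ≤ algRank W (sq X n) ((n + 1) * X.dim) ∧
      algRank W (sq X n) ((n + 1) * X.dim) ≤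
        (n + 2) ^ (Pool.Agent.R940.betti W X ^ 2) * numRank ops (sq X n) ((n + 1) * X.dim)) ∧
    ∀ κ, HomEqNum W (pw X κ) ∨
      RootTimes (Pool.Agent.R940.betti W X) (κ + 1) (fun n => algRank W (sq X n) ((n + 1) * X.dim))
        (fun n => numRank ops (sq X n) ((n + 1) * X.dim)) :=
  main W X hX P hP hD hbig

end Pool.Agent.Results.MP_f569db_ag.SquareRootLaw
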