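import Pool.Agent.Run7.h152.SP.Final
import Pool.Agent.Run7.h152.SP.Defs2

/-!
# Homological and numerical equivalence for varieties with supersingular reduction

Let `P i` be polarized varieties over a field `k` which satisfy the hard Lefschetz theorem and the
conjecture of Lefschetz type (for instance surfaces, abelian varieties, complete intersections,
products of them), and whose products specialize (`SpecializesTo`: good reduction) to the products of
polarized varieties `Q i` over a field `k₀` such that the classes of even degree on the products
`Q i × Q j` are algebraic (the `Q i` are *supersingular*), with the conjecture of Hodge type for the
products `Q i × Q j` (for supersingular surfaces and abelian varieties this follows from the Hodge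
index theorem and the positivity of the Rosati involution).

**Theorem.** Homological and numerical equivalence are the same for all varieties which are dominated
by products of the `P i`, with any number of factors and any repetitions, and these products
satisfy the conjecture of Hodge type.

So D is true, for all `ℓ` and for all products, for surfaces with supersingular reduction in
characteristic `p`: for instance for the products of the surfaces `X t`, `t` not algebraic over the
prime field, in any family of surfaces over a curve in characteristic `p` one of whose smooth members
is supersingular, such as every family of smooth surfaces of degree `d` in `ℙ³` which contains the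
Fermat surface, if `d` divides `p ^ ν + 1` for some `ν`. Nothing is assumed on the monodromy of the
family (if it is large, there are few cycles and D was known). Over a field of characteristic zero D
follows from the conjecture of Lefschetz type; the result is new for the fields of positive
characteristic which are not algebraic over the prime field, where supersingular varieties have
deformations which are not supersingular.

Proof. By the Künneth formula the classes of even degree on a product of the `Q i` are linear
combinations of products of algebraic classes on single factors and on pairs of factors (factors with
classes of odd degree are put together in pairs). On the span of such classes the sign of the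
intersection form is known by the conjecture for pairs, by the theory of Lefschetz operators and
matchings of earlier results (`Pool.Agent.W552`). So the conjecture of Hodge type is true for
the products of the `Q i`; it lifts to the products of the `P i`, where there are fewer cycles (D itself
would not lift), and with the conjecture of Lefschetz type it implies D there.
-/

set_option autoImplicit false

open CategoryTheory AlgebraicGeometry

universe u v u' v' w

namespace Pool.Agent.Results.MP_f569db_ag.SupersingularReduction

open Pool.Agent.H914 Pool.Agent.W552 Pool.Agent.H281R3.HT Run7.h152.SP VarClass Obj
  WeilCohomology

/-- **D and the conjecture of Hodge type for varieties with supersingular reduction.** -/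
theorem result {k : Type u} [Field k] {𝒱 : VarClass k} {ops : CycleOps 𝒱}
    (W : WeilCohomology.{u, v} ops)
    {k₀ : Type u'} [Field k₀] {𝒱₀ : VarClass k₀} {ops₀ : CycleOps 𝒱₀}
    (W₀ : WeilCohomology.{u', v'} ops₀) {ι : Type w}
    (P : ι → Polarized 𝒱) (hP : ∀ i, LefschetzType W (P i))
    (Q : ι → Polarized 𝒱₀) (hQ : ∀ i, LefschetzType W₀ (Q i)) (hdeg : ∀ i, PositiveTop ops₀ (Q i))
    (hH2 : HodgeTypePairs W₀ Q)
    (hE : ∀ i j, EvenAlgebraic W₀ ((Q i).X.prod (Q j).X))
    (n : ℕ) (a : Fin (n + 1) → ι)
    (hsp : SpecializesTo W W₀ (power ops P n a) (power ops₀ Q n a)) :
    StandardBelow W (power ops P n a) := by
  have hG : GeneratedByPairs W₀ n fun s => Q (a s) :=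
    GeneratedByPairs.of_even fun s t => hE (a s) (a t)
  obtain ⟨g, hg⟩ := exists_fr_nest n (fun s => P (a s)) (fun s => (hP _).1) (fun s => (hP _).2.1)
    (fun s => (hP _).2.2)
  exact hsp.final hg (isCyc_nest fun s => (hQ _).1)
    (hG.hodge (fun s => (hQ _).1) (fun s => hdeg _) (fun s => (hQ _).2.1) (fun s => (hQ _).2.2)
      (fun s t => hH2 _ _))

end Pool.Agent.Results.MP_f569db_ag.SupersingularReduction
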